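import Pool.Agent.R794.CT.C
import Pool.Agent.R794.CT.D

/-!
# The converse to the infinite-attribute transfer theorem fails

The definitions (concept classes, closure under projection and embedding, on-line learners, the two
notions of learnability, nested differences of monotone conjunctions, decision lists) are in
`Pool/Agent/R794/CT/Defs.lean`.

The nested difference of conjunctions `A 1, …, A k` of variables is `0` if `A 1` is not satisfied,
`1` if `A 1` is and `A 2` is not satisfied, `0` if `A 1` and `A 2` are and `A 3` is not, and so on.
In the infinite-attribute model it is learned by keeping conjunctions `H 1, H 2, …`, where `H i`
contains `A i`, and intersecting the first one which is not satisfied with the example whenever a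
mistake is made: this makes at most `k (N + 1)` mistakes, whatever the lengths of the `A i` are. But
over `{0,1}^n` every learner makes `n` mistakes on some monotone conjunction.
-/

set_option autoImplicit false

namespace Pool.Agent.Results.MP_8ec85b_lc.ConverseFails

open Pool.Agent.R794.CT

/-- 1. The nested differences of monotone conjunctions, with the number of the conjunctions as
size, form a projection- and embedding-closed class which is learnable in the infinite-attribute
model and has no attribute-efficient algorithm over `{0,1}^n`; in fact every learner, whatever its
running time, makes `n` mistakes on a concept of size at most one.

2. With the total length as size the class is still closed and learnable in the infinite-attribute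
model; and if it has an attribute-efficient algorithm, then so have decision lists.

3. For every class which is learnable in the infinite-attribute model there is a learner (of
unrestricted running time) over `{0,1}^n` with at most `p (size + r) * (log n + 1)` mistakes, where
`r` is the number of relevant variables (`c` depends only on the variables in `R`, `r = |R|`). -/
theorem result :
    (EmbeddingClosed (Nested number) ∧ ProjectionClosed (Nested number) ∧
      InfLearnable (Nested number) ∧ ¬ AttributeEfficient (Nested number) ∧
      ∀ (Λ : Learner (List Bool)) (n : ℕ), ∃ (c : (Fin n → Bool) → Bool) (l : List (Fin n → Bool)),
        (Nested number).Mem n c ∧ (Nested number).size n c ≤ 1 ∧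
        Λ.mistakes (l.map fun x => (List.ofFn x, c x)) = n) ∧
    (EmbeddingClosed (Nested total) ∧ ProjectionClosed (Nested total) ∧
      InfLearnable (Nested total) ∧
      (AttributeEfficient (Nested total) → AttributeEfficient DecisionLists)) ∧
    ∀ C : ConceptClass, InfLearnable C →
      ∃ (Λ : Learner (List Bool)) (p : Polynomial ℕ), ∀ (n : ℕ) (c : (Fin n → Bool) → Bool),
        C.Mem n c → ∀ R : Finset (Fin n),
          (∀ x y : Fin n → Bool, (∀ i ∈ R, x i = y i) → c x = c y) →
          ∀ l : List (Fin n → Bool), Λ.mistakes (l.map fun x => (List.ofFn x, c x)) ≤
            p.eval (C.size n c + R.card) * (Nat.log 2 n + 1) :=
  ⟨⟨embeddingClosed good_number, projectionClosed good_number, infLearnable good_number,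
    not_attributeEfficient, many_mistakes⟩,
    ⟨embeddingClosed good_total, projectionClosed good_total, infLearnable good_total,
      decisionLists⟩, relevant⟩

end Pool.Agent.Results.MP_8ec85b_lc.ConverseFails
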